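import Mathlib
import Pool.Agent.Q237.MS.Grow

/-!
# Volume growth of minimal subgraphs of the integer lattice

The two lower bounds of Q1 hold, with explicit constants: for every minimal subgraph `M` of `ℤⁿ`,
`n ≥ 2`, and `x ∈ M`: `|M ∩ B̂_r (x)| ≥ (r / 2n)ⁿ` for all `r ≥ 0`, and
`|δ M ∩ B̂_r (x)| ≥ r^(n-1) / (2 n² (8n)^(2n))` for all sufficiently large `r`.

The definitions `Adj`, `outer` (`τ`), `clo`, `vertexBoundary` (`δ`), `edgesOf` (`E_U`), `edgeBoundary` (`∂`),
`LeastPerimeter` and `IsMinimal` are in `Pool.Agent.Q237.MS.Base` and `Pool.Agent.Q237.MS.Grow`; they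
are literally those of the problem.
-/

set_option autoImplicit false

namespace Pool.Agent.Results.MP_f12303_co.VolumeGrowth

open Pool.Agent.Q237.MS

/-- The integer points of the cube `B̂_r (x)`. -/
def box {n : ℕ} (x : Fin n → ℤ) (r : ℝ) : Set (Fin n → ℤ) :=
  {y | ∀ i, |(y i : ℝ) - (x i : ℝ)| ≤ r}

theorem box_eq {n : ℕ} (x : Fin n → ℤ) {r : ℝ} (hr : 0 ≤ r) :
    box x r = (Q x ⌊r⌋₊ : Set (Fin n → ℤ)) := by
  ext y
  rw [Finset.mem_coe, mem_Q]
  simp only [box, Set.mem_ofPred_eq]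
  have key : ∀ i, |(y i : ℝ) - (x i : ℝ)| ≤ r ↔ (x i - ⌊r⌋₊ ≤ y i ∧ y i ≤ x i + ⌊r⌋₊) := by
    intro i
    have h1 : |(y i : ℝ) - (x i : ℝ)| = (((y i - x i).natAbs : ℕ) : ℝ) := by
      rw [Nat.cast_natAbs, Int.cast_abs]; push_cast; rfl
    rw [h1, ← Nat.le_floor_iff hr]
    omega
  exact forall_congr' key

theorem result :
    ∀ n : ℕ, 2 ≤ n → ∃ c₂ c₄ : ℝ, 0 < c₂ ∧ 0 < c₄ ∧
      ∀ M : Set (Fin n → ℤ), IsMinimal M → ∀ x ∈ M, ∃ r₀ : ℝ, ∀ r : ℝ, r₀ ≤ r →
        c₂ * r ^ n ≤ ((M ∩ box x r).ncard : ℝ) ∧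
        c₄ * r ^ (n - 1) ≤ ((vertexBoundary M ∩ box x r).ncard : ℝ) := by
  intro n hn
  classical
  have hn0 : (0 : ℝ) < n := by exact_mod_cast (by omega : 0 < n)
  refine ⟨(1 / (2 * n)) ^ n, 1 / (2 * n ^ 2 * (8 * n) ^ (2 * n)), by positivity, by positivity, ?_⟩
  intro M hM x hx
  obtain ⟨y₀, hy₀⟩ : ∃ y, y ∉ M := by
    by_contra hcon
    push Not at hcon
    exact hM.2.1 (Set.eq_univ_of_forall hcon)
  -- the distance of `y₀`
  obtain ⟨m, hm⟩ : ∃ m : ℕ, ∀ i, |y₀ i - x i| ≤ m := by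
    refine ⟨∑ i, (y₀ i - x i).natAbs, fun i => ?_⟩
    have h1 : (y₀ i - x i).natAbs ≤ ∑ i, (y₀ i - x i).natAbs :=
      Finset.single_le_sum (f := fun i => (y₀ i - x i).natAbs) (fun _ _ => Nat.zero_le _)
        (Finset.mem_univ i)
    rw [Int.abs_eq_natAbs]
    exact_mod_cast h1
  refine ⟨2 * m + 1, fun r hr => ?_⟩
  have hr0 : 0 ≤ r := by
    have : (0 : ℝ) ≤ 2 * m + 1 := by positivity
    linarith
  set N : ℕ := ⌊r⌋₊ with hN
  have hrN : r ≤ N + 1 := (Nat.lt_floor_add_one r).le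
  have hNm : 2 * m ≤ N := by
    rw [hN, Nat.le_floor_iff hr0]
    push_cast
    linarith
  rw [box_eq x hr0, ← hN]
  have hA := growth hn (comp_of_minimal hM) x hx N
  have hB := growth hn (comp_compl hM) y₀ hy₀ (N - m)
  have hAset : (M ∩ (Q x N : Set (Fin n → ℤ))).ncard = (vf M x N).card := by
    rw [← Set.ncard_coe_finset]
    congr 1
    ext z
    rw [Finset.mem_coe, mem_vf]
    exact and_comm
  constructor
  · rw [hAset]
    refine le_trans ?_ hA
    rw [← mul_pow]
    apply pow_le_pow_left₀ (by positivity)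
    rw [div_mul_eq_mul_div, one_mul, div_le_iff₀ (by positivity)]
    have : (1 + (N : ℝ) / (2 * n)) * (2 * n) = 2 * n + N := by field_simp
    rw [this]
    have : (2 : ℝ) ≤ n := by exact_mod_cast hn
    linarith
  · -- the complement in the cube
    have hsubB : vf Mᶜ y₀ (N - m) ⊆ vf Mᶜ x N := by
      intro z hz
      rw [mem_vf] at hz ⊢
      refine ⟨?_, hz.2⟩
      have h1 := mem_Q.1 hz.1
      rw [mem_Q]
      intro i
      have h2 := h1 i
      have h3 := abs_le.1 (hm i)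
      have h4 : ((N - m : ℕ) : ℤ) = (N : ℤ) - m := by omega
      rw [h4] at h2
      omega
    have hcardB : (vf Mᶜ y₀ (N - m)).card ≤ (vf Mᶜ x N).card := Finset.card_le_card hsubB
    have hcardB' : ((vf Mᶜ y₀ (N - m)).card : ℝ) ≤ (vf Mᶜ x N).card := by exact_mod_cast hcardB
    have hrel := relative x N (vf M x N) (vf Mᶜ x N) (fun y => by
      rw [mem_vf, mem_vf]
      constructor
      · intro h
        by_cases hy : y ∈ M
        · exact Or.inl ⟨h, hy⟩
        · exact Or.inr ⟨h, hy⟩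
      · rintro (h | h) <;> exact h.1) (fun y h1 h2 => by
      rw [mem_vf] at h1 h2
      exact h2.2 h1.2)
    -- every boundary point has at most `2 n` neighbours
    have hed : (ed (vf M x N) (vf Mᶜ x N)).card ≤
        (vertexBoundary M ∩ (Q x N : Set (Fin n → ℤ))).ncard * (2 * n) := by
      let D : Finset (Fin n → ℤ) := (vf M x N).filter fun z => ∃ y, y ∉ M ∧ Adj z y
      have hD : (vertexBoundary M ∩ (Q x N : Set (Fin n → ℤ))).ncard = D.card := by
        rw [← Set.ncard_coe_finset]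
        congr 1
        ext z
        simp only [D, Finset.coe_filter, mem_vf, Set.mem_inter_iff, vertexBoundary, Set.mem_ofPred_eq,
          Finset.mem_coe]
        tauto
      rw [hD]
      have h1 : ed (vf M x N) (vf Mᶜ x N) ⊆ D.biUnion fun z => (nb z).image fun y => (z, y) := by
        rintro ⟨a, b⟩ h
        simp only [ed, Finset.mem_filter, Finset.mem_product] at h
        rw [Finset.mem_biUnion]
        refine ⟨a, ?_, ?_⟩
        · rw [Finset.mem_filter]
          exact ⟨h.1.1, b, (mem_vf.1 h.1.2).2, h.2⟩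
        · rw [Finset.mem_image]
          exact ⟨b, mem_nb h.2, rfl⟩
      refine (Finset.card_le_card h1).trans (Finset.card_biUnion_le.trans ?_)
      refine (Finset.sum_le_sum fun z _ => Finset.card_image_le.trans (card_nb z)).trans ?_
      rw [Finset.sum_const, smul_eq_mul]
    set L : ℝ := 2 * (N : ℝ) + 1 with hL
    have hL0 : 0 < L := by positivity
    set δ : ℝ := ((vertexBoundary M ∩ (Q x N : Set (Fin n → ℤ))).ncard : ℝ) with hδ
    have hrel' : ((vf M x N).card : ℝ) * (vf Mᶜ x N).card ≤ n * (L ^ (n + 1) * (δ * (2 * n))) := by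
      have h1 : ((vf M x N).card : ℝ) * (vf Mᶜ x N).card ≤
          n * (L ^ (n + 1) * (ed (vf M x N) (vf Mᶜ x N)).card) := by
        rw [hL]
        exact_mod_cast hrel
      have h2 : ((ed (vf M x N) (vf Mᶜ x N)).card : ℝ) ≤ δ * (2 * n) := by
        rw [hδ]
        exact_mod_cast hed
      refine h1.trans ?_
      gcongr
    have hq : (L / (8 * n)) ^ n ≤ (1 + (N : ℝ) / (2 * n)) ^ n := by
      apply pow_le_pow_left₀ (by positivity)
      rw [div_le_iff₀ (by positivity)]
      have : (1 + (N : ℝ) / (2 * n)) * (8 * n) = 8 * n + 4 * N := by field_simp; ring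
      rw [this, hL]
      have : (2 : ℝ) ≤ n := by exact_mod_cast hn
      have : (0 : ℝ) ≤ N := Nat.cast_nonneg N
      linarith
    have hq2 : (L / (8 * n)) ^ n ≤ (1 + ((N - m : ℕ) : ℝ) / (2 * n)) ^ n := by
      apply pow_le_pow_left₀ (by positivity)
      rw [div_le_iff₀ (by positivity)]
      have h1 : (1 + ((N - m : ℕ) : ℝ) / (2 * n)) * (8 * n) = 8 * n + 4 * ((N - m : ℕ) : ℝ) := by
        field_simp; ring
      rw [h1, hL]
      have h2 : (2 : ℝ) ≤ n := by exact_mod_cast hn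
      have h3 : (N : ℝ) ≤ 2 * ((N - m : ℕ) : ℝ) := by
        have : N ≤ 2 * (N - m) := by omega
        exact_mod_cast this
      linarith
    have hprod : (L / (8 * n)) ^ n * (L / (8 * n)) ^ n ≤
        ((vf M x N).card : ℝ) * (vf Mᶜ x N).card := by
      apply mul_le_mul (hq.trans hA) ((hq2.trans hB).trans hcardB') (by positivity)
      exact Nat.cast_nonneg _
    have hmain := hprod.trans hrel'
    -- simplify
    have e1 : (L / (8 * n)) ^ n * (L / (8 * n)) ^ n = L ^ (2 * n) / (8 * n) ^ (2 * n) := by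
      rw [← pow_add, div_pow]
      congr 1
      · congr 1; ring
      · congr 1; ring
    have e2 : L ^ (2 * n) = L ^ (n - 1) * L ^ (n + 1) := by
      rw [← pow_add]
      congr 1
      omega
    rw [e1, e2] at hmain
    have hK : (0 : ℝ) < (8 * n) ^ (2 * n) := by positivity
    have h3 : L ^ (n - 1) * L ^ (n + 1) ≤ (n * (L ^ (n + 1) * (δ * (2 * n)))) * (8 * n) ^ (2 * n) :=
      (div_le_iff₀ hK).1 hmain
    have hLn : 0 < L ^ (n + 1) := by positivity
    have h4 : L ^ (n - 1) ≤ 2 * n ^ 2 * (8 * n) ^ (2 * n) * δ := by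
      have h5 : L ^ (n - 1) * L ^ (n + 1) ≤ (2 * n ^ 2 * (8 * n) ^ (2 * n) * δ) * L ^ (n + 1) := by
        refine h3.trans (le_of_eq ?_)
        ring
      exact le_of_mul_le_mul_right h5 hLn
    have h6 : r ^ (n - 1) ≤ L ^ (n - 1) := by
      apply pow_le_pow_left₀ hr0
      rw [hL]
      have : (0 : ℝ) ≤ N := Nat.cast_nonneg N
      linarith
    rw [div_mul_eq_mul_div, one_mul, div_le_iff₀ (by positivity)]
    calc r ^ (n - 1) ≤ L ^ (n - 1) := h6
      _ ≤ _ := h4
      _ = _ := by ring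

end Pool.Agent.Results.MP_f12303_co.VolumeGrowth
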